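import Mathlib
import Pool.Agent.R508.DACProd

set_option autoImplicit false

/-!
MP_dac110_gt, Q1: positive answer.  If `G` is a locally compact minimal group which is two-step
nilpotent then every power of `G` is minimal.  More generally every product of locally compact
minimal groups of nilpotency class at most two is minimal.
-/

namespace Pool.Agent.Results.MP_dac110_gt.ProductsMinimal

universe u v

/-- A Hausdorff topological group `(G, t)` is minimal if every Hausdorff group topology `s` on `G`
which is coarser than `t` (in Lean: `t ≤ s`) is equal to `t`. -/
structure MinimalGroup (G : Type u) [Group G] [t : TopologicalSpace G] : Prop where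
  isTopologicalGroup : IsTopologicalGroup G
  t2 : T2Space G
  minimal : ∀ s : TopologicalSpace G, @IsTopologicalGroup G s _ → @T2Space G s → t ≤ s → s = t

/-- Products of locally compact minimal groups of class at most two are minimal. In particular
(all `G i` equal) all powers of such a group are minimal. -/
theorem result {I : Type v} {G : I → Type u} [∀ i, Group (G i)] [∀ i, TopologicalSpace (G i)]
    [∀ i, LocallyCompactSpace (G i)] (hmin : ∀ i, MinimalGroup (G i))
    (hnil : ∀ i, ⁅(⊤ : Subgroup (G i)), (⊤ : Subgroup (G i))⁆ ≤ Subgroup.center (G i)) :
    MinimalGroup (∀ i, G i) := by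
  have h1 : ∀ i, IsTopologicalGroup (G i) := fun i => (hmin i).isTopologicalGroup
  have h2 : ∀ i, T2Space (G i) := fun i => (hmin i).t2
  refine ⟨inferInstance, inferInstance, ?_⟩
  refine Pool.Agent.R508.DAC.prod_minimal (fun i => (hmin i).minimal) ?_
  intro i x y
  have h := hnil i (Subgroup.commutator_mem_commutator (Subgroup.mem_top x⁻¹)
    (Subgroup.mem_top y⁻¹))
  rw [commutatorElement_def, inv_inv, inv_inv] at h
  exact h

end Pool.Agent.Results.MP_dac110_gt.ProductsMinimal
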